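import Pool.Agent.L7h77.QX.Dnx
import Pool.Agent.L7h97.G5.Den

/-!
# Project QX, part CMB: the union over the units
-/

set_option autoImplicit false

open scoped Classical

namespace Pool.Agent.L7h77.QX.M

open Finset Filter
open H385 (ZI im1 nrm)
open Pool.Agent.Y699 (PP PS PD nrm_mul nrm_cast)
open Pool.Agent.H304R2.EC.A1 (prim)
open Pool.Agent.L7h3.GX (Gd)
open Pool.Agent.Y703.CQ (c2)
open Pool.Agent.L7h97.QD (ratio fin_nrm)

lemma im1_re (a : ZI) : (im1 * a).re = -a.im := by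
  rw [Zsqrtd.re_mul]
  simp [im1]

lemma im1_im (a : ZI) : (im1 * a).im = a.re := by
  rw [Zsqrtd.im_mul]
  simp [im1]

lemma im1_ne : im1 ≠ 0 := by decide

lemma nrm_im1 : nrm im1 = 1 := by decide

lemma nrm_pow (k : ℕ) (a : ZI) : nrm (im1 ^ k * a) = nrm a := by
  induction k with
  | zero => rw [pow_zero, one_mul]
  | succ k ih => rw [pow_succ', mul_assoc, nrm_mul, nrm_im1, one_mul, ih]

lemma uniq {k l : ℕ} (hk : k < 4) (hl : l < 4) {a b : ZI} (ha : prim a) (hb : prim b)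
    (h : im1 ^ k * a = im1 ^ l * b) : k = l := by
  unfold prim at ha hb
  have h1 := congrArg Zsqrtd.re h
  have h2 := congrArg Zsqrtd.im h
  interval_cases k <;> interval_cases l <;>
    simp only [pow_succ', pow_zero, mul_assoc, one_mul, im1_re, im1_im] at h1 h2 <;>
    first
    | rfl
    | (exfalso; omega)

/-- the counting -/
theorem card_union (X : ℕ) (P : ℕ → ZI → Prop) :
    {D : ZI | nrm D ≤ X ∧ ∃ k < 4, ∃ D0 : ZI, D = im1 ^ k * D0 ∧ PS D0 ∧ P k D0}.ncard =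
      {D : ZI | nrm D ≤ X ∧ PS D ∧ P 0 D}.ncard + ({D : ZI | nrm D ≤ X ∧ PS D ∧ P 1 D}.ncard +
      ({D : ZI | nrm D ≤ X ∧ PS D ∧ P 2 D}.ncard + {D : ZI | nrm D ≤ X ∧ PS D ∧ P 3 D}.ncard)) := by
  obtain ⟨T, hT⟩ : ∃ T : ℕ → Set ZI, T = fun k => {D : ZI | nrm D ≤ X ∧ PS D ∧ P k D} := ⟨_, rfl⟩
  obtain ⟨F, hF⟩ : ∃ F : ℕ → Set ZI, F = fun k => (fun D => im1 ^ k * D) '' T k := ⟨_, rfl⟩
  have hfin : ∀ k, (T k).Finite := fun k => by
    rw [hT]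
    exact (fin_nrm X).subset fun D hD => hD.1
  have hFfin : ∀ k, (F k).Finite := fun k => by
    rw [hF]
    exact (hfin k).image _
  have hcard : ∀ k, (F k).ncard = (T k).ncard := fun k => by
    rw [hF]
    exact Set.ncard_image_of_injective _ fun a b hab => mul_left_cancel₀ (pow_ne_zero k im1_ne) hab
  have hdisj : ∀ k l, k < 4 → l < 4 → k ≠ l → Disjoint (F k) (F l) := by
    intro k l hk hl hkl
    rw [Set.disjoint_left, hF]
    rintro D ⟨a, ha, rfl⟩ ⟨b, hb, hab⟩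
    rw [hT] at ha hb
    exact hkl (uniq hl hk hb.2.1.prm ha.2.1.prm hab).symm
  have hU : {D : ZI | nrm D ≤ X ∧ ∃ k < 4, ∃ D0 : ZI, D = im1 ^ k * D0 ∧ PS D0 ∧ P k D0} =
      F 0 ∪ (F 1 ∪ (F 2 ∪ F 3)) := by
    ext D
    constructor
    · rintro ⟨h1, k, hk, D0, rfl, h2, h3⟩
      have h4 : im1 ^ k * D0 ∈ F k := by
        rw [hF, hT]
        exact ⟨D0, ⟨by rw [← nrm_pow k]; exact h1, h2, h3⟩, rfl⟩
      interval_cases k
      · exact Or.inl h4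
      · exact Or.inr (Or.inl h4)
      · exact Or.inr (Or.inr (Or.inl h4))
      · exact Or.inr (Or.inr (Or.inr h4))
    · have key : ∀ k < 4, D ∈ F k → nrm D ≤ X ∧ ∃ k < 4, ∃ D0 : ZI, D = im1 ^ k * D0 ∧ PS D0 ∧
          P k D0 := by
        intro k hk h
        rw [hF, hT] at h
        obtain ⟨a, ⟨h1, h2, h3⟩, rfl⟩ := h
        refine ⟨?_, k, hk, a, rfl, h2, h3⟩
        show nrm (im1 ^ k * a) ≤ X
        rw [nrm_pow]
        exact h1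
      rintro (h | h | h | h)
      · exact key 0 (by norm_num) h
      · exact key 1 (by norm_num) h
      · exact key 2 (by norm_num) h
      · exact key 3 (by norm_num) h
  have d01 := hdisj 0 1 (by norm_num) (by norm_num) (by norm_num)
  have d02 := hdisj 0 2 (by norm_num) (by norm_num) (by norm_num)
  have d03 := hdisj 0 3 (by norm_num) (by norm_num) (by norm_num)
  have d12 := hdisj 1 2 (by norm_num) (by norm_num) (by norm_num)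
  have d13 := hdisj 1 3 (by norm_num) (by norm_num) (by norm_num)
  have d23 := hdisj 2 3 (by norm_num) (by norm_num) (by norm_num)
  rw [hU, Set.ncard_union_eq (Set.disjoint_union_right.2 ⟨d01, Set.disjoint_union_right.2
      ⟨d02, d03⟩⟩) (hFfin 0) ((hFfin 1).union ((hFfin 2).union (hFfin 3))),
    Set.ncard_union_eq (Set.disjoint_union_right.2 ⟨d12, d13⟩) (hFfin 1)
      ((hFfin 2).union (hFfin 3)), Set.ncard_union_eq d23 (hFfin 2) (hFfin 3),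
    hcard, hcard, hcard, hcard, hT]

theorem norm_nrm (D : ZI) : D.norm % 8 = 5 ↔ nrm D % 8 = 5 := by
  rw [← nrm_cast]
  omega

end Pool.Agent.L7h77.QX.M

namespace Pool.Agent.L7h77.QX

open Finset Filter
open H385 (ZI im1 nrm)
open Pool.Agent.Y699 (PP PS PD nrm_mul nrm_cast)
open Pool.Agent.L7h3.GX (Gd)
open Pool.Agent.Y703.CQ (c2)
open Pool.Agent.L7h97.QD (ratio fin_nrm)
open Pool.Agent.L7h3.QX (S_CRX S_CMB ClX GoodX)

/-- **the proportion of the good parameters** -/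
theorem t_CMB (hC : S_CRX) : S_CMB := by
  have hX := t_DNX
  have h8 := Pool.Agent.L7h97.QD.t_DEN8
  unfold Pool.Agent.L7h3.QX.S_DNX at hX
  unfold Pool.Agent.L7h3.QD.S_DEN8 at h8
  unfold S_CMB
  -- the counts
  have hcl : ∀ X : ℕ, {D : ZI | nrm D ≤ X ∧ ClX D}.ncard =
      2 * {D : ZI | nrm D ≤ X ∧ PS D}.ncard +
      2 * {D : ZI | nrm D ≤ X ∧ (PS D ∧ nrm D % 8 = 5)}.ncard := by
    intro X
    have e : {D : ZI | nrm D ≤ X ∧ ClX D} = {D : ZI | nrm D ≤ X ∧ ∃ k < 4, ∃ D0 : ZI,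
        D = im1 ^ k * D0 ∧ PS D0 ∧ (k % 2 = 1 ∨ D0.norm % 8 = 5)} := by
      ext D
      exact and_congr_right fun _ => (hC D).1
    rw [e, M.card_union X (fun k D0 => k % 2 = 1 ∨ D0.norm % 8 = 5)]
    have e0 : {D : ZI | nrm D ≤ X ∧ PS D ∧ (0 % 2 = 1 ∨ D.norm % 8 = 5)} =
        {D : ZI | nrm D ≤ X ∧ (PS D ∧ nrm D % 8 = 5)} := by
      ext D
      simp only [Set.mem_ofPred_eq, M.norm_nrm]
      simp
    have e1 : {D : ZI | nrm D ≤ X ∧ PS D ∧ (1 % 2 = 1 ∨ D.norm % 8 = 5)} =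
        {D : ZI | nrm D ≤ X ∧ PS D} := by
      ext D
      simp
    have e2 : {D : ZI | nrm D ≤ X ∧ PS D ∧ (2 % 2 = 1 ∨ D.norm % 8 = 5)} =
        {D : ZI | nrm D ≤ X ∧ (PS D ∧ nrm D % 8 = 5)} := by
      ext D
      simp only [Set.mem_ofPred_eq, M.norm_nrm]
      simp
    have e3 : {D : ZI | nrm D ≤ X ∧ PS D ∧ (3 % 2 = 1 ∨ D.norm % 8 = 5)} =
        {D : ZI | nrm D ≤ X ∧ PS D} := by
      ext D
      simp
    rw [e0, e1]
    ring
  have hgd : ∀ X : ℕ, {D : ZI | nrm D ≤ X ∧ GoodX D}.ncard =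
      2 * {D : ZI | nrm D ≤ X ∧ PS D ∧ Pool.Agent.L7h3.QX.GdX (PD D)}.ncard +
      2 * {D : ZI | nrm D ≤ X ∧ (PS D ∧ nrm D % 8 = 5) ∧ Gd (PD D)}.ncard := by
    intro X
    have e : {D : ZI | nrm D ≤ X ∧ GoodX D} = {D : ZI | nrm D ≤ X ∧ ∃ k < 4, ∃ D0 : ZI,
        D = im1 ^ k * D0 ∧ PS D0 ∧ ((k % 2 = 1 ∧ Pool.Agent.L7h3.QX.GdX (PD D0)) ∨
          (k % 2 = 0 ∧ D0.norm % 8 = 5 ∧ Gd (PD D0)))} := by
      ext D
      exact and_congr_right fun _ => (hC D).2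
    rw [e, M.card_union X (fun k D0 => (k % 2 = 1 ∧ Pool.Agent.L7h3.QX.GdX (PD D0)) ∨
          (k % 2 = 0 ∧ D0.norm % 8 = 5 ∧ Gd (PD D0)))]
    have e0 : {D : ZI | nrm D ≤ X ∧ PS D ∧ ((0 % 2 = 1 ∧ Pool.Agent.L7h3.QX.GdX (PD D)) ∨
          (0 % 2 = 0 ∧ D.norm % 8 = 5 ∧ Gd (PD D)))} =
        {D : ZI | nrm D ≤ X ∧ (PS D ∧ nrm D % 8 = 5) ∧ Gd (PD D)} := by
      ext D
      simp only [Set.mem_ofPred_eq, M.norm_nrm]
      simp [and_assoc]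
    have e1 : {D : ZI | nrm D ≤ X ∧ PS D ∧ ((1 % 2 = 1 ∧ Pool.Agent.L7h3.QX.GdX (PD D)) ∨
          (1 % 2 = 0 ∧ D.norm % 8 = 5 ∧ Gd (PD D)))} =
        {D : ZI | nrm D ≤ X ∧ PS D ∧ Pool.Agent.L7h3.QX.GdX (PD D)} := by
      ext D
      simp
    have e2 : {D : ZI | nrm D ≤ X ∧ PS D ∧ ((2 % 2 = 1 ∧ Pool.Agent.L7h3.QX.GdX (PD D)) ∨
          (2 % 2 = 0 ∧ D.norm % 8 = 5 ∧ Gd (PD D)))} =
        {D : ZI | nrm D ≤ X ∧ (PS D ∧ nrm D % 8 = 5) ∧ Gd (PD D)} := by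
      ext D
      simp only [Set.mem_ofPred_eq, M.norm_nrm]
      simp [and_assoc]
    have e3 : {D : ZI | nrm D ≤ X ∧ PS D ∧ ((3 % 2 = 1 ∧ Pool.Agent.L7h3.QX.GdX (PD D)) ∨
          (3 % 2 = 0 ∧ D.norm % 8 = 5 ∧ Gd (PD D)))} =
        {D : ZI | nrm D ≤ X ∧ PS D ∧ Pool.Agent.L7h3.QX.GdX (PD D)} := by
      ext D
      simp
    rw [e0, e1]
    ring
  rw [tendsto_iff_norm_sub_tendsto_zero] at hX h8 ⊢
  have hsum := hX.add h8
  rw [add_zero] at hsum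
  refine squeeze_zero (fun _ => norm_nonneg _) (fun X => ?_) hsum
  rw [hcl X, hgd X, Real.norm_eq_abs, Real.norm_eq_abs, Real.norm_eq_abs]
  have hle1 : ({D : ZI | nrm D ≤ X ∧ PS D ∧ Pool.Agent.L7h3.QX.GdX (PD D)}.ncard : ℝ) ≤
      ({D : ZI | nrm D ≤ X ∧ PS D}.ncard : ℝ) := by
    have hsub : {D : ZI | nrm D ≤ X ∧ PS D ∧ Pool.Agent.L7h3.QX.GdX (PD D)} ⊆
        {D : ZI | nrm D ≤ X ∧ PS D} := fun D hD => ⟨hD.1, hD.2.1⟩
    exact_mod_cast Set.ncard_le_ncard hsub ((fin_nrm X).subset fun D hD => hD.1)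
  have hle2 : ({D : ZI | nrm D ≤ X ∧ (PS D ∧ nrm D % 8 = 5) ∧ Gd (PD D)}.ncard : ℝ) ≤
      ({D : ZI | nrm D ≤ X ∧ (PS D ∧ nrm D % 8 = 5)}.ncard : ℝ) := by
    have hsub : {D : ZI | nrm D ≤ X ∧ (PS D ∧ nrm D % 8 = 5) ∧ Gd (PD D)} ⊆
        {D : ZI | nrm D ≤ X ∧ (PS D ∧ nrm D % 8 = 5)} := fun D hD => ⟨hD.1, hD.2.1⟩
    exact_mod_cast Set.ncard_le_ncard hsub ((fin_nrm X).subset fun D hD => hD.1)
  have hr := ratio _ _ _ _ c2 (Nat.cast_nonneg _) hle1 (Nat.cast_nonneg _) hle2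
  refine (le_of_eq ?_).trans hr
  push_cast
  congr 2
  rw [← mul_add, ← mul_add, mul_div_mul_left _ _ (by norm_num : (2 : ℝ) ≠ 0)]

end Pool.Agent.L7h77.QX
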