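import Pool.Agent.L7h77.QX.Stm
import Pool.Agent.L7h77.GX.BOX

/-! # Project QX, part DNX: the count in a box (after `L7h77/GX/BOX.lean`) -/

set_option autoImplicit false
set_option linter.all false

open scoped Classical

namespace Pool.Agent.L7h77.QX

open Finset
open H385 (ZI nrm)
open Pool.Agent.Y699 (PP ep qr qr_rec)
open Pool.Agent.Y703.CQ (c2 sg)
open Pool.Agent.L7h3.GX (S_BIL prs HB S_EQ GdA S_LA sm la bl)
open Pool.Agent.L7h77.GX (ep_symm ez0 ez0_coe sum_un ext_sum HB_sub)

/-- the label of a prime with respect to the small primes and the additional vertex -/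
noncomputable def lb (S₀ : Finset ZI) (x : ZI) : Option S₀ → ZMod 2
  | none => wx x
  | some u => ep u x

/-- the matrix of the small part -/
noncomputable def AA (S₀ : Finset ZI) : Option S₀ → Option S₀ → ZMod 2
  | none, none => 0
  | none, some u => wx u
  | some u, none => wx u
  | some u, some v => ep u v

/-- the good labels -/
def LN {ι : Type} (S₀ : Finset ZI) (β : ι → Option S₀ → ZMod 2) : Prop :=
  ∀ w : Option S₀ → ZMod 2, (∃ u, w u ≠ 0) → ∃ i, ∑ u, w u * β i u ≠ 0

section one
variable {ι : Type} [Fintype ι] [LinearOrder ι] {S₀ : Finset ZI} {p : ι → ZI}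

omit [LinearOrder ι] in
theorem nd_iff : Nd S₀ (univ.image p) ↔ LN S₀ (fun i => lb S₀ (p i)) := by
  unfold Nd LN
  constructor
  · intro h w hw
    obtain ⟨x, hx, hx2⟩ := h (ez0 fun u => w (some u)) (w none) (by
      obtain ⟨o, ho⟩ := hw
      cases o with
      | none => exact Or.inl ho
      | some u => exact Or.inr ⟨u, u.2, by rw [ez0_coe]; exact ho⟩)
    rw [Finset.mem_image] at hx
    obtain ⟨i, -, rfl⟩ := hx
    refine ⟨i, ?_⟩
    rw [← Finset.sum_coe_sort S₀] at hx2
    intro h0
    apply hx2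
    rw [Fintype.sum_option] at h0
    rw [← h0]
    congr 1
    refine Finset.sum_congr rfl fun u _ => ?_
    rw [ez0_coe]
    rfl
  · intro h w t hw
    obtain ⟨i, hi⟩ := h (fun o => match o with | none => t | some u => w u) (by
      rcases hw with h1 | ⟨u, hu0, hu⟩
      · exact ⟨none, h1⟩
      · exact ⟨some ⟨u, hu0⟩, hu⟩)
    refine ⟨p i, Finset.mem_image_of_mem _ (Finset.mem_univ _), ?_⟩
    rw [← Finset.sum_coe_sort S₀]
    rw [Fintype.sum_option] at hi
    exact hi

/-- the sum of all the equations -/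
theorem sum_all {S : Finset ZI} (hS : ∀ π ∈ S, PP π) (v : ZI → ZMod 2)
    (h : ∀ π ∈ S, ∑ ρ ∈ S, ep π ρ * (v ρ - v π) - wx π * v π = 0) :
    ∑ π ∈ S, wx π * v π = 0 := by
  have h1 : ∑ π ∈ S, (∑ ρ ∈ S, ep π ρ * (v ρ - v π) - wx π * v π) = 0 :=
    Finset.sum_eq_zero h
  rw [Finset.sum_sub_distrib] at h1
  have h2 : ∑ π ∈ S, ∑ ρ ∈ S, ep π ρ * (v ρ - v π) = 0 := by
    have h3 : ∀ π ∈ S, ∑ ρ ∈ S, ep π ρ * (v ρ - v π) =
        ∑ ρ ∈ S, ep π ρ * v ρ - ∑ ρ ∈ S, ep π ρ * v π := by
      intro π _
      rw [← Finset.sum_sub_distrib]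
      exact Finset.sum_congr rfl fun ρ _ => by ring
    rw [Finset.sum_congr rfl h3, Finset.sum_sub_distrib, sub_eq_zero, Finset.sum_comm]
    refine Finset.sum_congr rfl fun ρ hρ => Finset.sum_congr rfl fun π hπ => ?_
    rw [ep_symm (hS π hπ) (hS ρ hρ)]
  rw [h2, zero_sub, neg_eq_zero] at h1
  exact h1

theorem gd_iff (hp : Function.Injective p) (hpr : ∀ i, PP (p i)) (hS₀ : ∀ u ∈ S₀, PP u)
    (hd : ∀ i, p i ∉ S₀) :
    GdX (S₀ ∪ univ.image p) ↔ GdA (AA S₀) (fun (u : Option S₀) l => lb S₀ (p l) u)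
      (Pool.Agent.L7h3.GX.ext fun e : prs ι => ep (p e.1.1) (p e.1.2)) := by
  have hPP : ∀ x ∈ S₀ ∪ univ.image p, PP x := by
    intro x hx
    rw [Finset.mem_union, Finset.mem_image] at hx
    rcases hx with hx | ⟨k, -, rfl⟩
    · exact hS₀ x hx
    · exact hpr k
  have hsym : ∀ (k : ι) (c : ZI → ZMod 2), ∑ u : S₀, ep (p k) u * (c u - c (p k)) =
      ∑ u : S₀, ep u (p k) * (c u - c (p k)) := by
    intro k c
    refine Finset.sum_congr rfl fun u _ => ?_
    rw [ep_symm (hpr k) (hS₀ u u.2)]
  have hsol : ∀ c : ZI → ZMod 2, (∀ π ∈ S₀ ∪ univ.image p,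
        ∑ ρ ∈ S₀ ∪ univ.image p, ep π ρ * (c ρ - c π) - wx π * c π = 0) ↔
      (∀ u : S₀, (∑ v : S₀, ep u v * (c v - c u) + ∑ l, ep u (p l) * (c (p l) - c u)) -
        wx u * c u = 0) ∧
      (∀ k : ι, (∑ u : S₀, ep u (p k) * (c u - c (p k)) +
        ∑ l, Pool.Agent.L7h3.GX.ext (fun e : prs ι => ep (p e.1.1) (p e.1.2)) k l *
          (c (p l) - c (p k))) - wx (p k) * c (p k) = 0) := by
    intro c
    constructor
    · intro h
      refine ⟨fun u => ?_, fun k => ?_⟩
      · have := h u (Finset.mem_union_left _ u.2)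
        rw [sum_un hp hd] at this
        exact this
      · have := h (p k) (Finset.mem_union_right _ (Finset.mem_image_of_mem _ (Finset.mem_univ _)))
        rw [sum_un hp hd, hsym] at this
        rw [ext_sum hpr k (fun l => c (p l))]
        exact this
    · rintro ⟨h1, h2⟩ x hx
      rw [sum_un hp hd]
      rw [Finset.mem_union, Finset.mem_image] at hx
      rcases hx with hx | ⟨k, -, rfl⟩
      · exact h1 ⟨x, hx⟩
      · have := h2 k
        rw [ext_sum hpr k (fun l => c (p l))] at this
        rw [hsym]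
        exact this
  unfold GdX GdA
  constructor
  · intro h c d h1 h2
    obtain ⟨t, ht⟩ : ∃ t, t = c none := ⟨_, rfl⟩
    obtain ⟨c', hc'⟩ : ∃ c' : ZI → ZMod 2, ∀ n, c' n = if h : n ∈ S₀ then c (some ⟨n, h⟩) - t else
      if h : ∃ l, p l = n then d h.choose - t else 0 := ⟨_, fun n => rfl⟩
    have e1 : ∀ u : S₀, c' u = c (some u) - t := by
      intro u
      rw [hc', dif_pos u.2]
    have e2 : ∀ l, c' (p l) = d l - t := by
      intro l
      have hex : ∃ l', p l' = p l := ⟨l, rfl⟩
      rw [hc', dif_neg (hd l), dif_pos hex]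
      have : hex.choose = l := hp hex.choose_spec
      rw [this]
    have h3 := h c' (by
      rw [hsol]
      refine ⟨fun u => ?_, fun k => ?_⟩
      · have h4 := h1 (some u)
        rw [Fintype.sum_option] at h4
        simp only [AA, lb] at h4
        simp only [e1, e2, sub_sub_sub_cancel_right]
        refine Eq.trans ?_ h4
        rw [ht]
        ring
      · have h4 := h2 k
        rw [Fintype.sum_option] at h4
        simp only [lb] at h4
        simp only [e1, e2, sub_sub_sub_cancel_right]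
        refine Eq.trans ?_ h4
        rw [ht]
        ring)
    refine ⟨t, fun u => ?_, fun l => ?_⟩
    · cases u with
      | none => exact ht.symm
      | some u =>
        have := h3 u (Finset.mem_union_left _ u.2)
        rw [e1, sub_eq_zero] at this
        exact this
    · have := h3 (p l) (Finset.mem_union_right _ (Finset.mem_image_of_mem _ (Finset.mem_univ _)))
      rw [e2, sub_eq_zero] at this
      exact this
  · intro h c hc
    have hall := sum_all hPP c hc
    rw [sum_un hp hd] at hall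
    rw [hsol] at hc
    obtain ⟨t, ht1, ht2⟩ := h (fun o => match o with | none => 0 | some u => c u)
      (fun l => c (p l)) (fun u => by
        cases u with
        | none =>
          rw [Fintype.sum_option]
          simp only [AA, lb, sub_zero, zero_mul, zero_add]
          exact hall
        | some u =>
          rw [Fintype.sum_option]
          simp only [AA, lb]
          refine Eq.trans ?_ (hc.1 u)
          ring)
      (fun k => by
          rw [Fintype.sum_option]
          simp only [lb]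
          refine Eq.trans ?_ (hc.2 k)
          ring)
    have ht : (0 : ZMod 2) = t := ht1 none
    intro x hx
    rw [Finset.mem_union, Finset.mem_image] at hx
    rcases hx with hx | ⟨k, -, rfl⟩
    · rw [ht]
      exact ht1 (some ⟨x, hx⟩)
    · rw [ht]
      exact ht2 k

end one

/-- **The count in a box.** -/
theorem t_BOX : S_BOX := by
  intro hEQ hLA ι _ _ C X κ S₀ hκ hCX hHB hS₀ hC hdis hcard
  obtain ⟨cc, hcc⟩ : ∃ cc : ℝ, cc = 2 * (2 ^ (S₀.card + 1) / 2 ^ Fintype.card ι) := ⟨_, rfl⟩
  obtain ⟨R, hR⟩ : ∃ R : ℝ, R = 2 ^ (prs ι).card * (κ * ∏ j, (X j : ℝ)) := ⟨_, rfl⟩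
  have hcc0 : 0 ≤ cc := by rw [hcc]; positivity
  have hR0 : 0 ≤ R := by
    rw [hR]
    exact mul_nonneg (by positivity)
      (mul_nonneg hκ (Finset.prod_nonneg fun j _ => by positivity))
  have hcO : Fintype.card (Option S₀) = S₀.card + 1 := by
    rw [Fintype.card_option, Fintype.card_coe]
  -- facts on tuples
  have hinj : ∀ p ∈ Fintype.piFinset C, Function.Injective p := by
    intro p hp i j hij
    rw [Fintype.mem_piFinset] at hp
    by_contra hne
    have h1 := Finset.disjoint_left.1 (hdis i j hne) (hp i)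
    rw [hij] at h1
    exact h1 (hp j)
  have hd : ∀ p ∈ Fintype.piFinset C, ∀ i, p i ∉ S₀ := by
    intro p hp i
    rw [Fintype.mem_piFinset] at hp
    exact (hC i _ (hp i)).2
  have hpr : ∀ p ∈ Fintype.piFinset C, ∀ i, PP (p i) := by
    intro p hp i
    rw [Fintype.mem_piFinset] at hp
    exact (hC i _ (hp i)).1
  -- the part with given labels
  have h1 : ∀ β : ι → Option S₀ → ZMod 2, LN S₀ β →
      |(((Fintype.piFinset C).filter fun p => (fun i => lb S₀ (p i)) = β ∧
          GdX (S₀ ∪ univ.image p)).card : ℝ) -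
        c2 * (((Fintype.piFinset C).filter fun p => (fun i => lb S₀ (p i)) = β).card : ℝ)| ≤
      cc * (((Fintype.piFinset C).filter fun p => (fun i => lb S₀ (p i)) = β).card : ℝ) + R := by
    intro β hβ
    obtain ⟨C', hC'⟩ : ∃ C' : ι → Finset ZI, C' = fun i => (C i).filter fun q => lb S₀ q = β i :=
      ⟨_, rfl⟩
    have hpi : (Fintype.piFinset C).filter (fun p => (fun i => lb S₀ (p i)) = β) =
        Fintype.piFinset C' := by
      ext p
      simp only [Finset.mem_filter, Fintype.mem_piFinset, hC']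
      constructor
      · rintro ⟨h2, h3⟩ i
        exact ⟨h2 i, congrFun h3 i⟩
      · intro h2
        exact ⟨fun i => (h2 i).1, funext fun i => (h2 i).2⟩
    have h2 := hLA (Option S₀) ι (AA S₀) (fun u l => β l u)
      (by rw [hcO]; exact hcard)
      (fun u v => by
        cases u with
        | none =>
          cases v with
          | none => rfl
          | some v => rfl
        | some u =>
          cases v with
          | none => rfl
          | some v => exact ep_symm (hS₀ u u.2) (hS₀ v v.2))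
      (fun w hw => hβ w hw)
    obtain ⟨Q, hQ⟩ : ∃ Q : (prs ι → ZMod 2) → Prop, Q = fun α =>
        GdA (AA S₀) (fun (u : Option S₀) l => β l u)
          (Pool.Agent.L7h3.GX.ext α) := ⟨_, rfl⟩
    have h3 := hEQ ι C' X κ hκ
      (fun i => (Finset.card_le_card (by rw [hC']; exact Finset.filter_subset _ _)).trans (hCX i))
      (by rw [hC']; exact HB_sub hHB fun i q => lb S₀ q = β i) Q
    have h4 : ((Fintype.piFinset C).filter fun p => (fun i => lb S₀ (p i)) = β ∧
        GdX (S₀ ∪ univ.image p)) = ((Fintype.piFinset C').filter fun p =>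
          Q fun e => ep (p e.1.1) (p e.1.2)) := by
      rw [← hpi, Finset.filter_filter]
      refine Finset.filter_congr fun p hp => ?_
      refine and_congr_right fun hl => ?_
      rw [gd_iff (hinj p hp) (hpr p hp) hS₀ (hd p hp)]
      subst hl
      rw [hQ]
    have h5 : (((Fintype.piFinset C').card : ℕ) : ℝ) = ∏ j, ((C' j).card : ℝ) := by
      rw [Fintype.card_piFinset]
      push_cast
      rfl
    rw [h4, hpi, h5]
    rw [hcO, ← hcc] at h2
    rw [← hR] at h3
    obtain ⟨n, hn⟩ : ∃ n : ℝ, n = (((Fintype.piFinset C').filter fun p =>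
          Q fun e => ep (p e.1.1) (p e.1.2)).card : ℝ) := ⟨_, rfl⟩
    obtain ⟨q, hq⟩ : ∃ q : ℝ, q = ((univ.filter Q).card : ℝ) / 2 ^ (prs ι).card := ⟨_, rfl⟩
    obtain ⟨P, hP⟩ : ∃ P : ℝ, P = ∏ j, ((C' j).card : ℝ) := ⟨_, rfl⟩
    have hP0 : 0 ≤ P := by
      rw [hP]
      exact Finset.prod_nonneg fun j _ => by positivity
    have h2' : |q - c2| ≤ cc := by
      rw [hq, hQ]
      exact h2
    rw [← hn, ← hq, ← hP] at h3
    rw [← hn, ← hP]
    have h6 : |n - c2 * P| ≤ |n - q * P| + |q - c2| * P := by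
      have h7 : n - c2 * P = (n - q * P) + (q - c2) * P := by ring
      have h8 : |(q - c2) * P| = |q - c2| * P := by rw [abs_mul, abs_of_nonneg hP0]
      rw [h7, ← h8]
      exact abs_add_le _ _
    have h7 : |q - c2| * P ≤ cc * P := mul_le_mul_of_nonneg_right h2' hP0
    linarith
  -- sum over the labels
  obtain ⟨LL, hLL⟩ : ∃ LL : Finset (ι → Option S₀ → ZMod 2), LL = univ.filter (fun β => LN S₀ β) :=
    ⟨_, rfl⟩
  have hfib : ∀ T : (ι → ZI) → Prop,
      (((Fintype.piFinset C).filter fun p => Nd S₀ (univ.image p) ∧ T p).card : ℝ) =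
      ∑ β ∈ LL, (((Fintype.piFinset C).filter fun p =>
        (fun i => lb S₀ (p i)) = β ∧ T p).card : ℝ) := by
    intro T
    rw [Finset.card_eq_sum_card_fiberwise (f := fun (p : ι → ZI) (i : ι) => lb S₀ (p i))
      (t := LL) (by
        intro p hp
        rw [Finset.mem_coe, Finset.mem_filter] at hp
        rw [Finset.mem_coe, hLL, Finset.mem_filter]
        exact ⟨Finset.mem_univ _, nd_iff.1 hp.2.1⟩)]
    push_cast
    refine Finset.sum_congr rfl fun β hβ => ?_
    rw [hLL, Finset.mem_filter] at hβ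
    congr 2
    ext p
    simp only [Finset.mem_filter]
    constructor
    · rintro ⟨⟨h3, h4, h4'⟩, h5⟩
      exact ⟨h3, h5, h4'⟩
    · rintro ⟨h3, h4, h5⟩
      refine ⟨⟨h3, ?_, h5⟩, h4⟩
      rw [nd_iff, h4]
      exact hβ.2
  have hf1 := hfib fun p => GdX (S₀ ∪ univ.image p)
  have hf2 := hfib fun _ => True
  simp only [and_true] at hf2
  rw [← hcc, hf1, hf2, Finset.mul_sum, ← Finset.sum_sub_distrib]
  refine (Finset.abs_sum_le_sum_abs _ _).trans ?_
  refine (Finset.sum_le_sum fun β hβ => h1 β (by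
    rw [hLL] at hβ
    exact (Finset.mem_filter.1 hβ).2)).trans ?_
  rw [Finset.sum_add_distrib, ← Finset.mul_sum, Finset.sum_const, nsmul_eq_mul]
  have h5 : ((LL.card : ℕ) : ℝ) ≤ 2 ^ ((S₀.card + 1) * Fintype.card ι) := by
    have h6 : LL.card ≤ Fintype.card (ι → Option S₀ → ZMod 2) :=
      Finset.card_le_univ _
    rw [Fintype.card_fun, Fintype.card_fun, ZMod.card, hcO, ← pow_mul] at h6
    exact_mod_cast h6
  have h6 := mul_le_mul_of_nonneg_right h5 hR0
  rw [pow_add, mul_assoc, ← hR]
  linarith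

end Pool.Agent.L7h77.QX
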