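import Pool.Agent.L7h77.QX.Stm
import Pool.Agent.L7h97.GX.LOW

/-!
# Project QX, part DNX: the class has positive density
-/

set_option autoImplicit false

open scoped Classical

namespace Pool.Agent.L7h77.QX

open Finset
open H385 (ZI nrm)
open Pool.Agent.Y699 (PP PS PD qr ep QB)

theorem t_LOW : S_LOW := by
  obtain ⟨c, X₀, hc, h⟩ := Pool.Agent.L7h97.GX.t_LOW
  refine ⟨c, X₀, hc, fun X hX => (h X hX).trans ?_⟩
  have h1 : Pool.Agent.L7h3.GX.SS X ⊆ SS X := by
    intro S hS
    unfold Pool.Agent.L7h3.GX.SS at hS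
    rw [mem_filter] at hS
    unfold SS
    rw [mem_filter]
    exact ⟨hS.1, hS.2.1.1, hS.2.2⟩
  exact_mod_cast card_le_card h1

end Pool.Agent.L7h77.QX
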