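import Pool.Agent.L7h3.QX.Stm2
import Pool.Agent.L7h77.QX.Ns
import Pool.Agent.L7h77.QX.Cnt
import Pool.Agent.L7h77.QX.Bad
import Pool.Agent.L7h77.QX.Asy
import Pool.Agent.L7h77.QX.Low
import Pool.Agent.L7h77.QX.Key
import Pool.Agent.L7h77.QX.Box
import Pool.Agent.L7h77.GX.BIL
import Pool.Agent.L7h77.GX.EQ
import Pool.Agent.L7h47.GX.LA
import Pool.Agent.Y948.CQ.C2A

/-!
# Project QX, part DNX

The proportion of the squarefree primary `D` for which the system with the additional vertex has only
the trivial solution. Ports of the parts of project GX: NS, CNT, BOX by helper77, Gen, BAD, ASY by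
helper97, KEY by helper23; BIL, EQ by helper77 and LA by helper47 are used as they are. New: the
additional vertex (`Box.lean`), the mean value for the twisted symbols (`Psi.lean`, `Bad.lean`).
-/

set_option autoImplicit false

open scoped Classical

namespace Pool.Agent.L7h77.QX

theorem t_DQ : S_DQ :=
  A.t_ASY Pool.Agent.L7h77.GX.t_BIL Pool.Agent.L7h77.GX.t_EQ
    Pool.Agent.L7h47.GX.t_LA t_BOX K.t_KEY
    CN.t_CNT F.t_BAD F.t_FEW t_LOW Pool.Agent.Y948.CQ.t_C2

/-- **the exact proportion** -/
theorem t_DEN : S_DEN := N.t_NS t_DQ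

theorem t_DNX : Pool.Agent.L7h3.QX.S_DNX := t_DEN

end Pool.Agent.L7h77.QX
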