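import Pool.Agent.L7h3.GX.Stm

/-!
# Project QX, part DNX: statements

Port of project GX (`Pool/Agent/L7h3/GX/Stm.lean`): all squarefree primary elements, one more vertex.
-/

set_option autoImplicit false
set_option linter.unusedVariables false

open scoped Classical

namespace Pool.Agent.L7h77.QX

open Finset
open H385 (ZI nrm)
open Pool.Agent.Y699 (PP PS PD qr ep QB)
open Pool.Agent.Y703.CX (jj XX eL zz kk)
open Pool.Agent.Y703.CQ (c2 sg S_SYM S_C2)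
open Pool.Agent.L7h3.GX (S_BIL prs HB S_EQ ext GdA S_LA sm la bl)

/-- the weight of a prime -/
def wx (π : ZI) : ZMod 2 := if π.norm % 8 = 5 then 1 else 0

/-- the system with the additional vertex has only the trivial solution -/
def GdX (S : Finset ZI) : Prop := ∀ v : ZI → ZMod 2,
  (∀ π ∈ S, ∑ ρ ∈ S, ep π ρ * (v ρ - v π) - wx π * v π = 0) → ∀ π ∈ S, v π = 0

/-- the class of the sets of primary primes -/
def Cl (S : Finset ZI) : Prop := ∀ π ∈ S, PP π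

/-- the sets of the class with norm at most `X` -/
noncomputable def SS (X : ℕ) : Finset (Finset ZI) :=
  (QB X).powerset.filter fun S => Cl S ∧ ∏ π ∈ S, nrm π ≤ X

/-- FINAL: the proportion of the good sets -/
def S_DQ : Prop := Filter.Tendsto
  (fun X : ℕ => (((SS X).filter GdX).card : ℝ) / ((SS X).card : ℝ)) Filter.atTop (nhds c2)

/-- the class, in terms of the elements -/
def ClsG (D : ZI) : Prop := PS D

/-- FINAL, in terms of the elements `D`. -/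
def S_DEN : Prop := Filter.Tendsto
  (fun X : ℕ => ({D : ZI | nrm D ≤ X ∧ ClsG D ∧ GdX (PD D)}.ncard : ℝ) /
    ({D : ZI | nrm D ≤ X ∧ ClsG D}.ncard : ℝ)) Filter.atTop (nhds c2)

/-- the translation -/
def S_NS : Prop := S_DQ → S_DEN

/-- the class has positive density. -/
def S_LOW : Prop := ∃ (c : ℝ) (X₀ : ℕ), 0 < c ∧ ∀ X : ℕ, X₀ ≤ X → c * X ≤ ((SS X).card : ℝ)

/-- the labels of the large primes with respect to the small ones and the additional vertex are not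
degenerate -/
def Nd (S₀ S₁ : Finset ZI) : Prop :=
  ∀ (v : ZI → ZMod 2) (t : ZMod 2), (t ≠ 0 ∨ ∃ u ∈ S₀, v u ≠ 0) →
    ∃ π ∈ S₁, t * wx π + ∑ u ∈ S₀, v u * ep u π ≠ 0

/-- the count in a box -/
def S_BOX : Prop := S_EQ → S_LA → ∀ (ι : Type) [Fintype ι] [LinearOrder ι]
  (C : ι → Finset ZI) (X : ι → ℕ) (κ : ℝ) (S₀ : Finset ZI), 0 ≤ κ → (∀ i, (C i).card ≤ X i) →
  HB C X κ → (∀ u ∈ S₀, PP u) → (∀ i, ∀ π ∈ C i, PP π ∧ π ∉ S₀) →
  (∀ i l, i ≠ l → Disjoint (C i) (C l)) → S₀.card + 1 < Fintype.card ι →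
  |(((Fintype.piFinset C).filter fun p => Nd S₀ (univ.image p) ∧ GdX (S₀ ∪ univ.image p)).card : ℝ) -
      c2 * (((Fintype.piFinset C).filter fun p => Nd S₀ (univ.image p)).card : ℝ)| ≤
    2 * (2 ^ (S₀.card + 1) / 2 ^ Fintype.card ι) *
      (((Fintype.piFinset C).filter fun p => Nd S₀ (univ.image p)).card : ℝ) +
    2 ^ ((S₀.card + 1) * Fintype.card ι + (prs ι).card) * (κ * ∏ j, (X j : ℝ))

/-- the regular sets -/
noncomputable def RR (X z H k V : ℕ) : Finset (Finset ZI) :=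
  (SS X).filter fun S => Set.InjOn (bl H) (la z S : Set ZI) ∧ S.card ≤ k ∧
    (∏ π ∈ sm z S, nrm π) * ∏ π ∈ la z S, XX H (bl H π) ≤ X ∧
    (sm z S).card + 1 + V < (la z S).card

/-- the sum over the boxes -/
def S_KEY : Prop := S_BIL → S_EQ → S_LA → S_BOX → ∃ C : ℝ, 1 ≤ C ∧
  ∀ (X z H k V N : ℕ) (κ : ℝ), 1 ≤ X → 1 ≤ H → 1 ≤ z → 0 ≤ κ → C ≤ κ ^ 24 * z →
  (H : ℝ) * Real.log X < N →
  |(((RR X z H k V).filter fun S => Nd (sm z S) (la z S) ∧ GdX S).card : ℝ) -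
      c2 * (((RR X z H k V).filter fun S => Nd (sm z S) (la z S)).card : ℝ)| ≤
    2 * (1 / 2 : ℝ) ^ V * ((RR X z H k V).card : ℝ) +
    (16 * N + 16 : ℝ) ^ k * (3 ^ (9 * k ^ 2 + 9) * κ) * (X * (1 + Real.log X))

/-- sets with many primes, sets near the boundary, sets with two primes in a block -/
structure CntP (C : ℝ) : Prop where
  one : 1 ≤ C
  all : ∀ X : ℕ, 1 ≤ X → ((SS X).card : ℝ) ≤ C * X
  many : ∀ X k : ℕ, 1 ≤ X → (((SS X).filter fun S => k < S.card).card : ℝ) * 2 ^ k ≤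
    C * (X * (1 + Real.log X))
  cut : ∀ X z H k : ℕ, 1 ≤ X → 1 ≤ H → 1 ≤ k → (((SS X).filter fun S => S.card ≤ k ∧
    X < (∏ π ∈ sm z S, nrm π) * ∏ π ∈ la z S, XX H (bl H π)).card : ℝ) ≤
      C * (X * (1 + Real.log X)) * (k / H) + C * X * Real.exp (-(Real.log X) / k)
  coll : ∀ X z H : ℕ, 1 ≤ X → 1 ≤ z → 1 ≤ H → (((SS X).filter fun S =>
    ¬ Set.InjOn (bl H) (la z S : Set ZI)).card : ℝ) ≤ C * (X * (1 + Real.log X)) / H + C * X / z

def S_CNT : Prop := ∃ C : ℝ, CntP C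

/-- few sets have degenerate labels -/
def S_BAD : Prop := ∀ ε : ℝ, 0 < ε → ∃ X₀ : ℕ, ∀ X : ℕ, X₀ ≤ X →
  (((SS X).filter fun S => S.card ≤ kk X ∧ ¬ Nd (sm (zz X) S) (la (zz X) S)).card : ℝ) ≤ ε * X

/-- few sets have few large primes -/
def S_FEW : Prop := ∀ (V : ℕ) (ε : ℝ), 0 < ε → ∃ X₀ : ℕ, ∀ X : ℕ, X₀ ≤ X →
  (((SS X).filter fun S => S.card ≤ kk X ∧ (la (zz X) S).card ≤ (sm (zz X) S).card + V).card : ℝ) ≤
    ε * X

/-- the assembly -/
def S_ASY : Prop := S_BIL → S_EQ → S_LA → S_BOX → S_KEY → S_CNT → S_BAD → S_FEW → S_LOW → S_C2 →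
  S_DQ

end Pool.Agent.L7h77.QX
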